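import Mathlib
import Pool.Agent.Helper952.Croft.Defs
import Pool.Agent.Helper952.Croft.Kill2Stub
import Pool.Agent.Helper991.Croft.AlmostIndicator

/-! Interfaces for the Borel version of the counterexample to Croft's question (helper546, from the
plan of helper445).  `CellKill2` and `Kill2Stmt` are in `Helper952.Croft.Kill2Stub`. -/

open MeasureTheory Real Set Filter Topology

namespace Croft

/-- the statement of the line-wise uniform almost-indicator lemma -/
def AI2Stmt : Prop :=
  ∀ h, Nice h → (∀ l : ℝ × ℝ, |l.2| < 1 → 0 < Rad h l) → ∀ ε > 0, ∃ h', Nice h' ∧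
    (∀ l, |Rad h' l - Rad h l| ≤ ε * Rad h l) ∧
    (∀ l, Rad (fun z => |h' z - h z|) l ≤ 2 * Rad (fun z => h z * (1 - h z)) l + ε) ∧
    (∀ l, Rad (fun z => h' z * (1 - h' z)) l ≤ ε)

end Croft
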