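import Mathlib
import Pool.Agent.Helper952.Croft.Defs
import Pool.Agent.Helper991.Croft.AlmostIndicator
import Pool.Agent.Helper546.CB.Defs2

/-! Assembly for the Borel version of the counterexample to Croft's question (helper546; adapted
from the assembly of helper991). -/

open MeasureTheory Real Set Filter Topology

namespace Croft
namespace F2
open AI

lemma pt_cont (θ p : ℝ) : Continuous (fun σ => pt θ p σ) :=
  continuous_iff_continuousAt.2 fun z => (pt_hasDerivAt θ p z).continuousAt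

/-- continuous functions vanishing off the disc are integrable on lines -/
lemma line_int {G : ℂ → ℝ} (hG : Continuous G) (h0 : ∀ z, 1 ≤ ‖z‖ → G z = 0) (l : ℝ × ℝ) :
    Integrable (fun σ : ℝ => G (pt l.1 l.2 σ)) := by
  apply Continuous.integrable_of_hasCompactSupport (hG.comp (pt_cont l.1 l.2))
  apply HasCompactSupport.of_support_subset_isCompact (isCompact_Icc (a := (-1 : ℝ)) (b := 1))
  intro σ hσ
  by_contra hc
  apply hσ
  apply h0
  apply one_le_norm_pt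
  by_contra h2
  push Not at h2
  rw [abs_lt] at h2
  exact hc ⟨h2.1.le, h2.2.le⟩

/-- bound of a line integral -/
lemma rad_le {G : ℂ → ℝ} (hG : Continuous G) (h0 : ∀ z, 1 ≤ ‖z‖ → G z = 0) (c : ℝ) (hc : 0 ≤ c)
    (h1 : ∀ z, G z ≤ c) (l : ℝ × ℝ) : Rad G l ≤ 2 * c := by
  unfold Rad
  have hz : ∀ σ : ℝ, σ ∉ Icc (-1 : ℝ) 1 → G (pt l.1 l.2 σ) = 0 := by
    intro σ hσ
    apply h0
    apply one_le_norm_pt
    by_contra h2
    push Not at h2
    rw [abs_lt] at h2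
    exact hσ ⟨h2.1.le, h2.2.le⟩
  have e1 : ∫ σ : ℝ, G (pt l.1 l.2 σ) = ∫ σ in Icc (-1 : ℝ) 1, G (pt l.1 l.2 σ) :=
    (setIntegral_eq_integral_of_forall_compl_eq_zero hz).symm
  have e2 : 2 * c = ∫ σ in Icc (-1 : ℝ) 1, c := by
    rw [setIntegral_const]
    simp only [measureReal_def, Real.volume_Icc, smul_eq_mul]
    norm_num
  rw [e1, e2]
  apply integral_mono (line_int hG h0 l).integrableOn
    (integrableOn_const (by simp))
  intro σ
  exact h1 _

lemma rad_nonneg {G : ℂ → ℝ} (h : ∀ z, 0 ≤ G z) (l : ℝ × ℝ) : 0 ≤ Rad G l :=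
  integral_nonneg fun σ => h _

lemma rad_add {G H : ℂ → ℝ} (hG : Continuous G) (h0 : ∀ z, 1 ≤ ‖z‖ → G z = 0)
    (hH : Continuous H) (h1 : ∀ z, 1 ≤ ‖z‖ → H z = 0) (l : ℝ × ℝ) :
    Rad (fun z => G z + H z) l = Rad G l + Rad H l :=
  integral_add (line_int hG h0 l) (line_int hH h1 l)

lemma rad_mono {G H : ℂ → ℝ} (hG : Continuous G) (h0 : ∀ z, 1 ≤ ‖z‖ → G z = 0)
    (hH : Continuous H) (h1 : ∀ z, 1 ≤ ‖z‖ → H z = 0) (h : ∀ z, G z ≤ H z) (l : ℝ × ℝ) :
    Rad G l ≤ Rad H l :=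
  integral_mono (line_int hG h0 l) (line_int hH h1 l) fun σ => h _

lemma step {x : ℝ × ℝ} {e c0 : ℝ} (hc : CellKill2 x e c0) (hai : AI2Stmt) (h : ℂ → ℝ) (hh : Nice h)
    (hpos : ∀ l : ℝ × ℝ, |l.2| < 1 → 0 < Rad h l)
    (β t ε : ℝ) (hβ : 0 < β) (ht : 0 < t) (hε : 0 < ε) :
    ∃ h' : ℂ → ℝ, ∃ β' : ℝ, ∃ U : Set ℂ, Nice h' ∧ (∀ l : ℝ × ℝ, |l.2| < 1 → 0 < Rad h' l) ∧
      0 < β' ∧ MeasurableSet U ∧ U ⊆ Metric.ball 0 1 ∧ β' ≤ β / 2 ∧
      (∀ l, |Rad h' l - Rad h l| ≤ β / 2) ∧ (∀ l, |Rad h' l - Rad h l| ≤ ε * Rad h l) ∧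
      (∀ l, Rad (fun z => |h' z - h z|) l ≤ 2 * Rad (fun z => h z * (1 - h z)) l + ε) ∧
      (∀ l, Rad (fun z => h' z * (1 - h' z)) l ≤ ε) ∧
      (∀ θ p, |θ - x.1| ≤ e → |p - x.2| ≤ e → |Rad h' (θ, p) - t| ≤ β' →
        ENNReal.ofReal c0 ≤ volume {σ : ℝ | pt θ p σ ∈ U}) ∧
      (∀ l : ℝ × ℝ, ε ≤ |Rad h l - t| → volume {σ : ℝ | pt l.1 l.2 σ ∈ U} ≤ ENNReal.ofReal ε) := by
  set ε1 : ℝ := min (1 / 4) (min (β / 16) (ε / 4)) with hε1
  have h0 : 0 < ε1 := by positivity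
  have i1 : ε1 ≤ 1 / 4 := min_le_left _ _
  have i2 : ε1 ≤ β / 16 := (min_le_right _ _).trans (min_le_left _ _)
  have i3 : ε1 ≤ ε / 4 := (min_le_right _ _).trans (min_le_right _ _)
  obtain ⟨h1, n1, r1, d1, j1⟩ := hai h hh hpos ε1 h0
  have hR2 : ∀ l, Rad h l ≤ 2 := by
    intro l
    have := rad_le hh.c1.continuous hh.supp 1 zero_le_one hh.le_one l
    linarith
  have hR0 : ∀ l, 0 ≤ Rad h l := fun l => rad_nonneg hh.nonneg l
  have hpos1 : ∀ l : ℝ × ℝ, |l.2| < 1 → 0 < Rad h1 l := by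
    intro l hl
    have a1 := abs_le.1 (r1 l)
    have a2 := hpos l hl
    nlinarith [a1.1]
  obtain ⟨h2, n2, q2, r2, U, hU, hUb, δ, hδ, s2, w2⟩ := hc h1 n1 hpos1 t ht ε1 h0
  have rel : ∀ l, |Rad h2 l - Rad h l| ≤ 3 * ε1 * Rad h l := by
    intro l
    have a1 := r1 l
    have a2 := r2 l
    have a3 := (abs_le.1 a1).2
    have a4 := hR0 l
    have a5 : ε1 * Rad h1 l ≤ ε1 * (2 * Rad h l) := by
      apply mul_le_mul_of_nonneg_left _ h0.le
      nlinarith
    calc |Rad h2 l - Rad h l| = |(Rad h2 l - Rad h1 l) + (Rad h1 l - Rad h l)| := by congr 1; ring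
      _ ≤ |Rad h2 l - Rad h1 l| + |Rad h1 l - Rad h l| := abs_add_le _ _
      _ ≤ ε1 * (2 * Rad h l) + ε1 * Rad h l := by linarith
      _ = 3 * ε1 * Rad h l := by ring
  have c1 := n1.c1.continuous
  have c2 := n2.c1.continuous
  have ch := hh.c1.continuous
  refine ⟨h2, min δ (β / 2), U, n2, ?_, by positivity, hU, hUb, min_le_right _ _, ?_, ?_, ?_, ?_,
    ?_, ?_⟩
  · intro l hl
    have a1 := abs_le.1 (rel l)
    have a2 := hpos l hl
    nlinarith [a1.1]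
  · intro l
    have a1 := rel l
    have a2 := hR2 l
    have a3 := hR0 l
    have a4 : 3 * ε1 * Rad h l ≤ 3 * ε1 * 2 := mul_le_mul_of_nonneg_left a2 (by positivity)
    linarith
  · intro l
    have a1 := rel l
    have a3 := hR0 l
    have a4 : 3 * ε1 * Rad h l ≤ ε * Rad h l := mul_le_mul_of_nonneg_right (by linarith) a3
    linarith
  · intro l
    have b1 : Rad (fun z => |h2 z - h z|) l ≤
        Rad (fun z => |h2 z - h1 z|) l + Rad (fun z => |h1 z - h z|) l := by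
      rw [← rad_add (G := fun z => |h2 z - h1 z|) (H := fun z => |h1 z - h z|)
        (c2.sub c1).abs (fun z hz => by simp [n2.supp z hz, n1.supp z hz])
        (c1.sub ch).abs (fun z hz => by simp [n1.supp z hz, hh.supp z hz])]
      apply rad_mono (G := fun z => |h2 z - h z|) (H := fun z => |h2 z - h1 z| + |h1 z - h z|)
        (c2.sub ch).abs (fun z hz => by simp [n2.supp z hz, hh.supp z hz])
        ((c2.sub c1).abs.add (c1.sub ch).abs)
        (fun z hz => by simp [n1.supp z hz, hh.supp z hz, n2.supp z hz])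
      intro z
      show |h2 z - h z| ≤ |h2 z - h1 z| + |h1 z - h z|
      exact abs_sub_le _ _ _
    have b2 : Rad (fun z => |h2 z - h1 z|) l ≤ 2 * ε1 :=
      rad_le (c2.sub c1).abs (fun z hz => by simp [n2.supp z hz, n1.supp z hz]) ε1 h0.le q2 l
    have b3 := d1 l
    linarith
  · intro l
    have b1 : Rad (fun z => h2 z * (1 - h2 z)) l ≤
        Rad (fun z => |h2 z - h1 z|) l + Rad (fun z => h1 z * (1 - h1 z)) l := by
      rw [← rad_add (G := fun z => |h2 z - h1 z|) (H := fun z => h1 z * (1 - h1 z))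
        (c2.sub c1).abs (fun z hz => by simp [n2.supp z hz, n1.supp z hz])
        (c1.mul (continuous_const.sub c1)) (fun z hz => by simp [n1.supp z hz])]
      apply rad_mono (G := fun z => h2 z * (1 - h2 z))
        (H := fun z => |h2 z - h1 z| + h1 z * (1 - h1 z)) (c2.mul (continuous_const.sub c2)) (fun z hz => by simp [n2.supp z hz])
        ((c2.sub c1).abs.add (c1.mul (continuous_const.sub c1)))
        (fun z hz => by simp [n1.supp z hz, n2.supp z hz])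
      intro z
      show h2 z * (1 - h2 z) ≤ |h2 z - h1 z| + h1 z * (1 - h1 z)
      have e2 := n1.nonneg z
      have e3 := n1.le_one z
      have e4 := n2.nonneg z
      have e5 := n2.le_one z
      have e6 : h2 z * (1 - h2 z) - h1 z * (1 - h1 z) = (h2 z - h1 z) * (1 - h2 z - h1 z) := by ring
      have e7 : (h2 z - h1 z) * (1 - h2 z - h1 z) ≤ |h2 z - h1 z| := by
        calc (h2 z - h1 z) * (1 - h2 z - h1 z) ≤ |(h2 z - h1 z) * (1 - h2 z - h1 z)| := le_abs_self _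
          _ = |h2 z - h1 z| * |1 - h2 z - h1 z| := abs_mul _ _
          _ ≤ |h2 z - h1 z| * 1 := by
              apply mul_le_mul_of_nonneg_left _ (abs_nonneg _)
              rw [abs_le]; constructor <;> linarith
          _ = |h2 z - h1 z| := mul_one _
      linarith
    have b2 : Rad (fun z => |h2 z - h1 z|) l ≤ 2 * ε1 :=
      rad_le (c2.sub c1).abs (fun z hz => by simp [n2.supp z hz, n1.supp z hz]) ε1 h0.le q2 l
    have b3 := j1 l
    linarith
  · intro θ p hθ hp hr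
    exact s2 θ p hθ hp (hr.trans (min_le_left _ _))
  · intro l hl
    have a1 := r1 l
    have a2 := hR2 l
    have a3 : ε1 * Rad h l ≤ ε1 * 2 := mul_le_mul_of_nonneg_left a2 h0.le
    have a4 : |Rad h l - t| ≤ |Rad h1 l - t| + |Rad h1 l - Rad h l| := by
      have := abs_sub_le (Rad h l) (Rad h1 l) t
      rw [abs_sub_comm (Rad h l) (Rad h1 l)] at this
      linarith
    exact (w2 l (by linarith)).trans (ENNReal.ofReal_le_ofReal (by linarith))

/-- a task: a cell and a level -/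
structure Task where
  x : ℝ × ℝ
  e : ℝ
  c0 : ℝ
  t : ℝ
  he : 0 < e
  hc0 : 0 < c0
  ht : 0 < t
  kill : CellKill2 x e c0

/-- the data of the construction: densities `h n`, budgets `β n`, sets `U n` -/
structure Chain (T : ℕ → Task) where
  h : ℕ → ℂ → ℝ
  β : ℕ → ℝ
  U : ℕ → Set ℂ
  nice : ∀ n, Nice (h n)
  βpos : ∀ n, 0 < β n
  hU : ∀ n, MeasurableSet (U n)
  Ub : ∀ n, U n ⊆ Metric.ball 0 1
  βle : ∀ n, β (n + 1) ≤ β n / 2
  rad : ∀ n l, |Rad (h (n + 1)) l - Rad (h n) l| ≤ β n / 2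
  rel : ∀ n l, |Rad (h (n + 1)) l - Rad (h n) l| ≤ (1 / 4) ^ (n + 1) * Rad (h n) l
  dif : ∀ n l, Rad (fun z => |h (n + 1) z - h n z|) l ≤
    2 * Rad (fun z => h n z * (1 - h n z)) l + (1 / 4) ^ (n + 1)
  J : ∀ n l, Rad (fun z => h (n + 1) z * (1 - h (n + 1) z)) l ≤ (1 / 4) ^ (n + 1)
  serve : ∀ n, ∀ θ p, |θ - (T n).x.1| ≤ (T n).e → |p - (T n).x.2| ≤ (T n).e →
    |Rad (h (n + 1)) (θ, p) - (T n).t| ≤ β (n + 1) →
        ENNReal.ofReal (T n).c0 ≤ volume {σ : ℝ | pt θ p σ ∈ U n}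
  star : ∀ n (l : ℝ × ℝ), (1 / 4) ^ (n + 1) ≤ |Rad (h n) l - (T n).t| →
    volume {σ : ℝ | pt l.1 l.2 σ ∈ U n} ≤ ENNReal.ofReal ((1 / 4) ^ (n + 1))

lemma exists_chain (hai : AI2Stmt) (T : ℕ → Task) (h0 : ℂ → ℝ) (hh0 : Nice h0)
    (hpos0 : ∀ l : ℝ × ℝ, |l.2| < 1 → 0 < Rad h0 l) :
    ∃ c : Chain T, c.h 0 = h0 := by
  classical
  have key : ∀ (n : ℕ) (s : {q : (ℂ → ℝ) × ℝ // (Nice q.1 ∧ ∀ l : ℝ × ℝ, |l.2| < 1 → 0 < Rad q.1 l)
        ∧ 0 < q.2}),
      ∃ (s' : {q : (ℂ → ℝ) × ℝ // (Nice q.1 ∧ ∀ l : ℝ × ℝ, |l.2| < 1 → 0 < Rad q.1 l) ∧ 0 < q.2}),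
      ∃ U : Set ℂ, MeasurableSet U ∧ U ⊆ Metric.ball 0 1 ∧ s'.1.2 ≤ s.1.2 / 2 ∧
      (∀ l, |Rad s'.1.1 l - Rad s.1.1 l| ≤ s.1.2 / 2) ∧
      (∀ l, |Rad s'.1.1 l - Rad s.1.1 l| ≤ (1 / 4) ^ (n + 1) * Rad s.1.1 l) ∧
      (∀ l, Rad (fun z => |s'.1.1 z - s.1.1 z|) l ≤
        2 * Rad (fun z => s.1.1 z * (1 - s.1.1 z)) l + (1 / 4) ^ (n + 1)) ∧
      (∀ l, Rad (fun z => s'.1.1 z * (1 - s'.1.1 z)) l ≤ (1 / 4) ^ (n + 1)) ∧
      (∀ θ p, |θ - (T n).x.1| ≤ (T n).e → |p - (T n).x.2| ≤ (T n).e →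
        |Rad s'.1.1 (θ, p) - (T n).t| ≤ s'.1.2 →
        ENNReal.ofReal (T n).c0 ≤ volume {σ : ℝ | pt θ p σ ∈ U}) ∧
      (∀ l : ℝ × ℝ, (1 / 4) ^ (n + 1) ≤ |Rad s.1.1 l - (T n).t| →
        volume {σ : ℝ | pt l.1 l.2 σ ∈ U} ≤ ENNReal.ofReal ((1 / 4) ^ (n + 1))) := by
    rintro n ⟨⟨h, β⟩, ⟨hn, hp⟩, hβ⟩
    obtain ⟨h', β', U, a1, a2, a3, a4, a5, a6, a7, a8, a9, a10, a11, a12⟩ :=
      step (T n).kill hai h hn hp β (T n).t ((1 / 4) ^ (n + 1)) hβ (T n).ht (by positivity)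
    exact ⟨⟨⟨h', β'⟩, ⟨a1, a2⟩, a3⟩, U, a4, a5, a6, a7, a8, a9, a10, a11, a12⟩
  choose next U hnext using key
  let s : ℕ → {q : (ℂ → ℝ) × ℝ // (Nice q.1 ∧ ∀ l : ℝ × ℝ, |l.2| < 1 → 0 < Rad q.1 l) ∧ 0 < q.2} :=
    fun n => Nat.rec ⟨(h0, 1), ⟨hh0, hpos0⟩, zero_lt_one⟩ (fun n s => next n s) n
  have hs : ∀ n, s (n + 1) = next n (s n) := fun n => rfl
  refine ⟨⟨fun n => (s n).1.1, fun n => (s n).1.2, fun n => U n (s n), fun n => (s n).2.1.1,
    fun n => (s n).2.2, ?_, ?_, ?_, ?_, ?_, ?_, ?_, ?_, ?_⟩, rfl⟩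
  · intro n; exact (hnext n (s n)).1
  · intro n; exact (hnext n (s n)).2.1
  · intro n; rw [hs]; exact (hnext n (s n)).2.2.1
  · intro n l; rw [hs]; exact (hnext n (s n)).2.2.2.1 l
  · intro n l; rw [hs]; exact (hnext n (s n)).2.2.2.2.1 l
  · intro n l; rw [hs]; exact (hnext n (s n)).2.2.2.2.2.1 l
  · intro n l; rw [hs]; exact (hnext n (s n)).2.2.2.2.2.2.1 l
  · intro n; rw [hs]; exact (hnext n (s n)).2.2.2.2.2.2.2.1
  · intro n; exact (hnext n (s n)).2.2.2.2.2.2.2.2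

variable {T : ℕ → Task} (c : Chain T)

lemma Chain.rad_le (k j : ℕ) (l : ℝ × ℝ) : |Rad (c.h (k + j)) l - Rad (c.h k) l| ≤ c.β k - c.β (k + j) := by
  induction j with
  | zero => simp
  | succ j ih =>
    have h1 := c.rad (k + j) l
    have h2 := c.βle (k + j)
    rw [← add_assoc]
    calc _ = |(Rad (c.h (k + j + 1)) l - Rad (c.h (k + j)) l) + (Rad (c.h (k + j)) l - Rad (c.h k) l)| := by
          congr 1; ring
      _ ≤ |Rad (c.h (k + j + 1)) l - Rad (c.h (k + j)) l| + |Rad (c.h (k + j)) l - Rad (c.h k) l| :=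
          abs_add_le _ _
      _ ≤ _ := by linarith

lemma Chain.rad_le' (k m : ℕ) (hkm : k ≤ m) (l : ℝ × ℝ) :
    |Rad (c.h m) l - Rad (c.h k) l| ≤ c.β k := by
  obtain ⟨j, rfl⟩ := Nat.exists_eq_add_of_le hkm
  have := c.rad_le k j l
  have := c.βpos (k + j)
  linarith

lemma Chain.β_tendsto : Tendsto c.β atTop (𝓝 0) := by
  have h1 : ∀ n, c.β n ≤ c.β 0 * (1 / 2) ^ n := by
    intro n
    induction n with
    | zero => simp
    | succ n ih =>
      have := c.βle n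
      rw [pow_succ]
      linarith
  refine squeeze_zero (fun n => (c.βpos n).le) h1 ?_
  have := (tendsto_pow_atTop_nhds_zero_of_lt_one (by norm_num : (0:ℝ) ≤ 1 / 2) (by norm_num)).const_mul (c.β 0)
  simpa using this

lemma Chain.rel_bounds (n : ℕ) (l : ℝ × ℝ) :
    (1 / 2 + (1 / 2) ^ (n + 1)) * Rad (c.h 0) l ≤ Rad (c.h n) l ∧
      Rad (c.h n) l ≤ (2 - (1 / 2) ^ n) * Rad (c.h 0) l := by
  have h0 : 0 ≤ Rad (c.h 0) l := rad_nonneg (c.nice 0).nonneg l
  induction n with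
  | zero => constructor <;> norm_num
  | succ n ih =>
    obtain ⟨i1, i2⟩ := ih
    have a1 := abs_le.1 (c.rel n l)
    have hq : (0:ℝ) < (1 / 2) ^ (n + 1) := by positivity
    have hq1 : ((1:ℝ) / 2) ^ (n + 1) ≤ 1 / 2 := by
      rw [pow_succ]
      have : ((1:ℝ) / 2) ^ n ≤ 1 := pow_le_one₀ (by norm_num) (by norm_num)
      linarith
    have e4 : ((1:ℝ) / 4) ^ (n + 1) = (1 / 2) ^ (n + 1) * (1 / 2) ^ (n + 1) := by
      rw [← mul_pow]; norm_num
    have e1 : ((1:ℝ) / 2) ^ (n + 1 + 1) = (1 / 2) ^ (n + 1) * (1 / 2) := pow_succ _ _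
    have e2 : ((1:ℝ) / 2) ^ n = 2 * (1 / 2) ^ (n + 1) := by rw [pow_succ]; ring
    rw [e4] at a1
    rw [e1]
    rw [e2] at i2
    set q : ℝ := (1 / 2) ^ (n + 1) with hqd
    constructor
    · have b1 : (1 - q * q) * Rad (c.h n) l ≤ Rad (c.h (n + 1)) l := by linarith [a1.1]
      have b2 : (1 - q * q) * ((1 / 2 + q) * Rad (c.h 0) l) ≤ (1 - q * q) * Rad (c.h n) l :=
        mul_le_mul_of_nonneg_left i1 (by nlinarith)
      have b3 : (1 / 2 + q * (1 / 2)) * Rad (c.h 0) l ≤ (1 - q * q) * ((1 / 2 + q) * Rad (c.h 0) l) := by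
        rw [← mul_assoc]
        apply mul_le_mul_of_nonneg_right _ h0
        nlinarith
      linarith
    · have b1 : Rad (c.h (n + 1)) l ≤ (1 + q * q) * Rad (c.h n) l := by linarith [a1.2]
      have b2 : (1 + q * q) * Rad (c.h n) l ≤ (1 + q * q) * ((2 - 2 * q) * Rad (c.h 0) l) :=
        mul_le_mul_of_nonneg_left i2 (by nlinarith)
      have b3 : (1 + q * q) * ((2 - 2 * q) * Rad (c.h 0) l) ≤ (2 - q) * Rad (c.h 0) l := by
        rw [← mul_assoc]
        apply mul_le_mul_of_nonneg_right _ h0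
        nlinarith
      linarith

lemma ae_summable1 (f : ℕ → ℝ → ℝ) (hf : ∀ n, Integrable (f n)) (h0 : ∀ n z, 0 ≤ f n z) (a : ℕ → ℝ)
    (ha : Summable a) (h : ∀ n, ∫ z, f n z ≤ a n) : ∀ᵐ z : ℝ, Summable (fun n => f n z) := by
  have ha0 : ∀ n, 0 ≤ a n := fun n => (integral_nonneg (h0 n)).trans (h n)
  have h1 : ∫⁻ z : ℝ, ∑' n, ENNReal.ofReal (f n z) ≠ ⊤ := by
    rw [lintegral_tsum (fun n => (hf n).aestronglyMeasurable.aemeasurable.ennreal_ofReal)]
    have h2 : ∀ n, ∫⁻ z : ℝ, ENNReal.ofReal (f n z) ≤ ENNReal.ofReal (a n) := by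
      intro n
      rw [← ofReal_integral_eq_lintegral_ofReal (hf n) (Filter.Eventually.of_forall (h0 n))]
      exact ENNReal.ofReal_le_ofReal (h n)
    refine ne_top_of_le_ne_top ?_ (ENNReal.tsum_le_tsum h2)
    rw [← ENNReal.ofReal_tsum_of_nonneg ha0 ha]
    exact ENNReal.ofReal_ne_top
  have hm : AEMeasurable (fun z : ℝ => ∑' n, ENNReal.ofReal (f n z)) volume :=
    AEMeasurable.ennreal_tsum (fun n => (hf n).aestronglyMeasurable.aemeasurable.ennreal_ofReal)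
  have h3 := ae_lt_top' hm h1
  filter_upwards [h3] with z hz
  have h4 := ENNReal.summable_toReal hz.ne
  refine h4.congr ?_
  intro n
  exact ENNReal.toReal_ofReal (h0 n z)

/-- convergence almost everywhere on EVERY line -/
lemma Chain.line_conv (l : ℝ × ℝ) : ∀ᵐ σ : ℝ, Tendsto (fun n => c.h n (pt l.1 l.2 σ)) atTop (𝓝 0) ∨
    Tendsto (fun n => c.h n (pt l.1 l.2 σ)) atTop (𝓝 1) := by
  have s2 : Summable (fun n : ℕ => ((1:ℝ) / 4) ^ (n + 1)) :=
    (summable_nat_add_iff 1).2 (summable_geometric_of_lt_one (by norm_num) (by norm_num))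
  have hs1 : ∀ n, ∫ σ : ℝ, |c.h (n + 2) (pt l.1 l.2 σ) - c.h (n + 1) (pt l.1 l.2 σ)| ≤
      3 * (1 / 4) ^ (n + 1) := by
    intro n
    have a1 := c.dif (n + 1) l
    have a2 := c.J n l
    have a3 : ((1:ℝ) / 4) ^ (n + 1 + 1) = (1 / 4) ^ (n + 1) * (1 / 4) := pow_succ _ _
    have a4 : (0:ℝ) < (1 / 4) ^ (n + 1) := by positivity
    have a5 : ∫ σ : ℝ, |c.h (n + 2) (pt l.1 l.2 σ) - c.h (n + 1) (pt l.1 l.2 σ)| =
      Rad (fun z => |c.h (n + 1 + 1) z - c.h (n + 1) z|) l := rfl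
    rw [a5]
    linarith
  have b1 := ae_summable1 (fun n σ => |c.h (n + 2) (pt l.1 l.2 σ) - c.h (n + 1) (pt l.1 l.2 σ)|)
    (fun n => line_int (G := fun z => |c.h (n + 2) z - c.h (n + 1) z|)
      ((c.nice (n + 2)).c1.continuous.sub (c.nice (n + 1)).c1.continuous).abs
      (fun z hz => by simp [(c.nice (n + 2)).supp z hz, (c.nice (n + 1)).supp z hz]) l)
    (fun n z => abs_nonneg _) _ (s2.mul_left 3) hs1
  have b2 := ae_summable1 (fun n σ => c.h (n + 1) (pt l.1 l.2 σ) * (1 - c.h (n + 1) (pt l.1 l.2 σ)))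
    (fun n => line_int (G := fun z => c.h (n + 1) z * (1 - c.h (n + 1) z))
      ((c.nice (n + 1)).c1.continuous.mul (continuous_const.sub (c.nice (n + 1)).c1.continuous))
      (fun z hz => by simp [(c.nice (n + 1)).supp z hz]) l)
    (fun n z => mul_nonneg ((c.nice (n + 1)).nonneg _) (by linarith [(c.nice (n + 1)).le_one (pt l.1 l.2 z)]))
    _ s2 (fun n => c.J n l)
  filter_upwards [b1, b2] with σ z1 z2
  have k1 : CauchySeq (fun n => c.h (n + 1) (pt l.1 l.2 σ)) := by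
    apply cauchySeq_of_summable_dist
    refine z1.congr ?_
    intro n
    rw [Real.dist_eq, abs_sub_comm]
  obtain ⟨L, hL⟩ := cauchySeq_tendsto_of_complete k1
  have k2 := z2.tendsto_atTop_zero
  have k3 : Tendsto (fun n => c.h (n + 1) (pt l.1 l.2 σ) * (1 - c.h (n + 1) (pt l.1 l.2 σ))) atTop
      (𝓝 (L * (1 - L))) := hL.mul (hL.const_sub 1)
  have k4 := tendsto_nhds_unique k2 k3
  have hL' : Tendsto (fun n => c.h n (pt l.1 l.2 σ)) atTop (𝓝 L) := (tendsto_add_atTop_iff_nat 1).1 hL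
  rcases mul_eq_zero.1 k4.symm with h | h
  · left; rw [h] at hL'; exact hL'
  · right
    have : L = 1 := by linarith
    rw [this] at hL'; exact hL'

/-- the limit set -/
def Chain.E0 : Set ℂ := {z | Tendsto (fun n => c.h n z) atTop (𝓝 1)}

/-- the exceptional set -/
def Chain.N : Set ℂ := limsup c.U atTop

lemma Chain.measE0 : MeasurableSet c.E0 :=
  measurableSet_tendsto _ (fun n => (c.nice n).c1.continuous.measurable)

lemma Chain.measN : MeasurableSet c.N := MeasurableSet.measurableSet_limsup c.hU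

lemma Chain.E0_sub : c.E0 ⊆ Metric.ball 0 1 := by
  intro z hz
  rw [mem_ball_zero_iff]
  by_contra hcon
  push Not at hcon
  have h1 : Tendsto (fun n => c.h n z) atTop (𝓝 0) := by
    have : (fun n => c.h n z) = fun _ => 0 := by
      ext n
      exact (c.nice n).supp z hcon
    rw [this]
    exact tendsto_const_nhds
  have := tendsto_nhds_unique h1 hz
  norm_num at this

lemma Chain.mem_N (z : ℂ) : z ∈ c.N ↔ ∀ n, ∃ m ≥ n, z ∈ c.U m := by
  unfold Chain.N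
  rw [limsup_eq_iInf_iSup_of_nat]
  simp only [iInf_eq_iInter, iSup_eq_iUnion, mem_iInter, mem_iUnion, exists_prop]

lemma Chain.N_sub : c.N ⊆ Metric.ball 0 1 := by
  intro z hz
  rw [c.mem_N] at hz
  obtain ⟨m, _, hm⟩ := hz 0
  exact c.Ub m hm

lemma Chain.rad_tendsto (l : ℝ × ℝ) :
    Tendsto (fun n => Rad (c.h n) l) atTop (𝓝 (volume {σ : ℝ | pt l.1 l.2 σ ∈ c.E0}).toReal) := by
  have hpc := pt_cont l.1 l.2
  have hms : MeasurableSet {σ : ℝ | pt l.1 l.2 σ ∈ c.E0} := hpc.measurable c.measE0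
  have e1 : (volume {σ : ℝ | pt l.1 l.2 σ ∈ c.E0}).toReal =
      ∫ σ : ℝ, Set.indicator {σ : ℝ | pt l.1 l.2 σ ∈ c.E0} (fun _ => (1:ℝ)) σ := by
    rw [integral_indicator hms]
    simp [Measure.real]
  rw [e1]
  unfold Rad
  apply tendsto_integral_of_dominated_convergence (Set.indicator (Icc (-1:ℝ) 1) (fun _ => (1:ℝ)))
  · intro n
    exact ((c.nice n).c1.continuous.comp hpc).aestronglyMeasurable
  · rw [integrable_indicator_iff measurableSet_Icc]
    exact integrableOn_const (by simp)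
  · intro n
    refine Filter.Eventually.of_forall ?_
    intro σ
    by_cases hσ : σ ∈ Icc (-1:ℝ) 1
    · rw [indicator_of_mem hσ, Real.norm_eq_abs, abs_of_nonneg ((c.nice n).nonneg _)]
      exact (c.nice n).le_one _
    · rw [indicator_of_notMem hσ]
      have : 1 ≤ |σ| := by
        by_contra h2
        push Not at h2
        rw [abs_lt] at h2
        exact hσ ⟨h2.1.le, h2.2.le⟩
      rw [(c.nice n).supp _ (one_le_norm_pt _ _ _ this), norm_zero]
  · filter_upwards [c.line_conv l] with σ hσ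
    rcases hσ with h2 | h2
    · have h3 : σ ∉ {σ : ℝ | pt l.1 l.2 σ ∈ c.E0} := by
        intro h4
        have := tendsto_nhds_unique h2 h4
        norm_num at this
      rw [indicator_of_notMem h3]
      exact h2
    · rw [indicator_of_mem (show σ ∈ {σ : ℝ | pt l.1 l.2 σ ∈ c.E0} from h2)]
      exact h2

lemma Chain.limit_close (l : ℝ × ℝ) (k : ℕ) :
    |Rad (c.h k) l - (volume {σ : ℝ | pt l.1 l.2 σ ∈ c.E0}).toReal| ≤ c.β k := by
  have h1 := (c.rad_tendsto l).sub_const (Rad (c.h k) l)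
  have h2 := h1.abs
  rw [abs_sub_comm]
  apply le_of_tendsto h2
  filter_upwards [eventually_ge_atTop k] with m hm
  exact c.rad_le' k m hm l

lemma Chain.limit_rel (l : ℝ × ℝ) :
    1 / 2 * Rad (c.h 0) l ≤ (volume {σ : ℝ | pt l.1 l.2 σ ∈ c.E0}).toReal ∧
      (volume {σ : ℝ | pt l.1 l.2 σ ∈ c.E0}).toReal ≤ 2 * Rad (c.h 0) l := by
  have h0 : 0 ≤ Rad (c.h 0) l := rad_nonneg (c.nice 0).nonneg l
  constructor
  · apply ge_of_tendsto' (c.rad_tendsto l)
    intro n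
    have := (c.rel_bounds n l).1
    have h2 : (0:ℝ) ≤ (1 / 2) ^ (n + 1) * Rad (c.h 0) l := by positivity
    linarith
  · apply le_of_tendsto' (c.rad_tendsto l)
    intro n
    have := (c.rel_bounds n l).2
    have h2 : (0:ℝ) ≤ (1 / 2) ^ n * Rad (c.h 0) l := by positivity
    linarith

/-- a line whose limit value is at positive distance from the levels meets `N` in a null set -/
lemma Chain.null_line (l : ℝ × ℝ) (d : ℝ) (hd : 0 < d)
    (h : ∀ n, d ≤ |(volume {σ : ℝ | pt l.1 l.2 σ ∈ c.E0}).toReal - (T n).t|) :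
    volume {σ : ℝ | pt l.1 l.2 σ ∈ c.N} = 0 := by
  have h1 : ∀ᶠ n in atTop, (1 / 4 : ℝ) ^ (n + 1) ≤ |Rad (c.h n) l - (T n).t| := by
    have t1 : Tendsto (fun n : ℕ => (1 / 4 : ℝ) ^ (n + 1)) atTop (𝓝 0) :=
      (tendsto_add_atTop_iff_nat 1).2
        (tendsto_pow_atTop_nhds_zero_of_lt_one (by norm_num : (0:ℝ) ≤ 1 / 4) (by norm_num))
    filter_upwards [t1.eventually_lt_const (show (0:ℝ) < d / 2 by positivity),
      c.β_tendsto.eventually_lt_const (show (0:ℝ) < d / 2 by positivity)] with n a1 a2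
    have a3 := c.limit_close l n
    have a4 := h n
    have a5 := abs_sub_le (volume {σ : ℝ | pt l.1 l.2 σ ∈ c.E0}).toReal (Rad (c.h n) l) (T n).t
    rw [abs_sub_comm _ (Rad (c.h n) l)] at a5
    linarith
  obtain ⟨n0, hn0⟩ := eventually_atTop.1 h1
  have hsub : {σ : ℝ | pt l.1 l.2 σ ∈ c.N} ⊆
      limsup (fun n => {σ : ℝ | pt l.1 l.2 σ ∈ c.U (n + n0)}) atTop := by
    intro σ hσ
    have hσ' := (c.mem_N _).1 hσ
    rw [limsup_eq_iInf_iSup_of_nat]
    simp only [iInf_eq_iInter, iSup_eq_iUnion, mem_iInter, mem_iUnion, exists_prop]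
    intro n
    obtain ⟨m, hm, hmU⟩ := hσ' (n + n0)
    refine ⟨m - n0, by omega, ?_⟩
    show pt l.1 l.2 σ ∈ c.U (m - n0 + n0)
    have : m - n0 + n0 = m := by omega
    rw [this]
    exact hmU
  apply measure_mono_null hsub
  apply measure_limsup_atTop_eq_zero
  have hle : ∀ n, volume {σ : ℝ | pt l.1 l.2 σ ∈ c.U (n + n0)} ≤ ENNReal.ofReal ((1 / 4) ^ n) := by
    intro n
    refine (c.star (n + n0) l (hn0 _ (Nat.le_add_left _ _))).trans (ENNReal.ofReal_le_ofReal ?_)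
    exact pow_le_pow_of_le_one (by norm_num) (by norm_num) (by omega)
  refine ne_top_of_le_ne_top ?_ (ENNReal.tsum_le_tsum hle)
  rw [← ENNReal.ofReal_tsum_of_nonneg (fun n => by positivity)
    (summable_geometric_of_lt_one (by norm_num) (by norm_num))]
  exact ENNReal.ofReal_ne_top

/-- the cells of infinitely many tasks -/
lemma Chain.served_line (θ p : ℝ) (t : ℝ) (c1 : ℝ)
    (heq : (volume {σ : ℝ | pt θ p σ ∈ c.E0}).toReal = t)
    (hinf : ∀ n, ∃ m ≥ n, |θ - (T m).x.1| ≤ (T m).e ∧ |p - (T m).x.2| ≤ (T m).e ∧ (T m).t = t ∧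
      (T m).c0 = c1) :
    ENNReal.ofReal c1 ≤ volume {σ : ℝ | pt θ p σ ∈ c.N} := by
  have hpc := pt_cont θ p
  set A : ℕ → Set ℝ := fun n => {σ : ℝ | pt θ p σ ∈ c.U n} with hA
  have hAm : ∀ n, MeasurableSet (A n) := fun n => hpc.measurable (c.hU n)
  set B : ℕ → Set ℝ := fun n => ⋃ m ≥ n, A m with hB
  have hBm : ∀ n, MeasurableSet (B n) := fun n =>
    MeasurableSet.iUnion fun m => MeasurableSet.iUnion fun _ => hAm m
  have hBanti : Antitone B := by
    intro i j hij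
    apply iUnion₂_subset
    intro m hm
    exact subset_iUnion₂_of_subset m (hij.trans hm) (Subset.refl _)
  have hBsub : B 0 ⊆ Icc (-1) 1 := by
    apply iUnion₂_subset
    intro m _ σ hσ
    have h1 := c.Ub m hσ
    rw [mem_ball_zero_iff] at h1
    by_contra hcon
    have : 1 ≤ |σ| := by
      by_contra h2
      push Not at h2
      rw [abs_lt] at h2
      exact hcon ⟨h2.1.le, h2.2.le⟩
    have := one_le_norm_pt θ p σ this
    linarith
  have hfin : volume (B 0) ≠ ⊤ := ne_top_of_le_ne_top (by simp) (measure_mono hBsub)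
  have htend := tendsto_measure_iInter_atTop (μ := volume) (fun n => (hBm n).nullMeasurableSet) hBanti ⟨0, hfin⟩
  have hge : ENNReal.ofReal c1 ≤ volume (⋂ n, B n) := by
    apply ge_of_tendsto' htend
    intro n
    obtain ⟨m, hm, g1, g2, g3, g4⟩ := hinf n
    have h1 := c.limit_close (θ, p) (m + 1)
    rw [heq, ← g3] at h1
    have h2 := c.serve m θ p g1 g2 h1
    rw [g4] at h2
    refine h2.trans (measure_mono ?_)
    exact subset_iUnion₂_of_subset m hm (Subset.refl _)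
  refine hge.trans (measure_mono ?_)
  intro σ hσ
  show pt θ p σ ∈ c.N
  rw [c.mem_N]
  intro n
  have := mem_iInter.1 hσ n
  simp only [hB, mem_iUnion] at this
  obtain ⟨m, hm, hm2⟩ := this
  exact ⟨m, hm, hm2⟩

end F2
end Croft
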