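import Mathlib
import Pool.Agent.Helper952.Croft.Defs
import Pool.Agent.Helper991.Croft.AlmostIndicator
import Pool.Agent.Helper991.Croft.Bernstein
import Pool.Agent.Helper991.Croft.Final
import Pool.Agent.Helper991.Croft.AI2
import Pool.Agent.Helper546.CB.Defs2
import Pool.Agent.Helper546.CB.Asm2

/-! Final step of the Borel version of the counterexample to Croft's question (helper546). -/

open MeasureTheory Real Set Filter Topology

namespace Croft
namespace F2
open AI

/-- the starting density -/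
noncomputable def hz (z : ℂ) : ℝ := expNegInvGlue (1 - ‖z‖ ^ 2) / 100

lemma eng_le_one (x : ℝ) : expNegInvGlue x ≤ 1 := by
  unfold expNegInvGlue
  split_ifs with h
  · norm_num
  · push Not at h
    rw [Real.exp_le_one_iff]
    have : 0 < x⁻¹ := by positivity
    linarith

lemma eng_mono {x y : ℝ} (h : x ≤ y) : expNegInvGlue x ≤ expNegInvGlue y := by
  by_cases hx : x ≤ 0
  · rw [expNegInvGlue.zero_of_nonpos hx]
    exact expNegInvGlue.nonneg y
  · push Not at hx
    unfold expNegInvGlue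
    rw [if_neg (by linarith), if_neg (by linarith)]
    apply Real.exp_le_exp.2
    have := inv_anti₀ hx h
    linarith

lemma hz_nice : Nice hz := by
  refine ⟨?_, ?_, ?_, ?_⟩
  · unfold hz
    apply ContDiff.div_const
    exact (expNegInvGlue.contDiff (n := 1)).comp (contDiff_const.sub (contDiff_norm_sq ℝ))
  · intro z
    have := expNegInvGlue.nonneg (1 - ‖z‖ ^ 2)
    unfold hz
    positivity
  · intro z
    have := eng_le_one (1 - ‖z‖ ^ 2)
    unfold hz
    linarith
  · intro z h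
    unfold hz
    rw [expNegInvGlue.zero_of_nonpos (by nlinarith)]
    simp

lemma hz_pt (θ p σ : ℝ) : hz (pt θ p σ) = expNegInvGlue (1 - (p ^ 2 + σ ^ 2)) / 100 := by
  unfold hz
  rw [norm_pt_sq]

lemma rad_hz_upper (θ p : ℝ) (hp : |p| < 1) : Rad hz (θ, p) ≤ √(1 - p ^ 2) / 50 := by
  have h1 : 0 ≤ 1 - p ^ 2 := by
    have := abs_lt.1 hp
    nlinarith
  set r := √(1 - p ^ 2) with hr
  have hr0 : 0 ≤ r := Real.sqrt_nonneg _
  have hr2 : r ^ 2 = 1 - p ^ 2 := Real.sq_sqrt h1
  have hint := line_int hz_nice.c1.continuous hz_nice.supp (θ, p)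
  unfold Rad
  have hzz : ∀ σ : ℝ, σ ∉ Icc (-r) r → hz (pt θ p σ) = 0 := by
    intro σ hσ
    rw [hz_pt, expNegInvGlue.zero_of_nonpos, zero_div]
    have : r < |σ| := by
      by_contra h2
      push Not at h2
      rw [abs_le] at h2
      exact hσ h2
    have h3 : σ ^ 2 = |σ| ^ 2 := (sq_abs σ).symm
    nlinarith
  have e1 : ∫ σ : ℝ, hz (pt θ p σ) = ∫ σ in Icc (-r) r, hz (pt θ p σ) :=
    (setIntegral_eq_integral_of_forall_compl_eq_zero hzz).symm
  have e2 : r / 50 = ∫ σ in Icc (-r) r, (1 / 100 : ℝ) := by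
    rw [setIntegral_const]
    simp only [measureReal_def, Real.volume_Icc, smul_eq_mul]
    rw [ENNReal.toReal_ofReal (by linarith)]
    ring
  rw [e1, e2]
  apply integral_mono hint.integrableOn (integrableOn_const (by simp))
  intro σ
  show hz (pt θ p σ) ≤ 1 / 100
  unfold hz
  have := eng_le_one (1 - ‖pt θ p σ‖ ^ 2)
  linarith

lemma rad_hz_lower (τ : ℝ) (hτ : 0 < τ) : ∃ m > 0, ∀ θ p : ℝ, |p| < 1 → τ ≤ 2 * √(1 - p ^ 2) →
    m ≤ Rad hz (θ, p) := by
  refine ⟨τ / 2 * (expNegInvGlue (3 * τ ^ 2 / 16) / 100), ?_, ?_⟩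
  · have := expNegInvGlue.pos_of_pos (show 0 < 3 * τ ^ 2 / 16 by positivity)
    positivity
  · intro θ p hp hle
    have h1 : 0 ≤ 1 - p ^ 2 := by
      have := abs_lt.1 hp
      nlinarith
    have h2 : τ ^ 2 / 4 ≤ 1 - p ^ 2 := by
      have := Real.sq_sqrt h1
      have h3 := Real.sqrt_nonneg (1 - p ^ 2)
      nlinarith
    have hint := line_int hz_nice.c1.continuous hz_nice.supp (θ, p)
    have e2 : τ / 2 * (expNegInvGlue (3 * τ ^ 2 / 16) / 100) =
        ∫ σ in Icc (-(τ / 4)) (τ / 4), (expNegInvGlue (3 * τ ^ 2 / 16) / 100) := by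
      rw [setIntegral_const]
      simp only [measureReal_def, Real.volume_Icc, smul_eq_mul]
      rw [ENNReal.toReal_ofReal (by linarith)]
      ring
    rw [e2]
    calc ∫ σ in Icc (-(τ / 4)) (τ / 4), (expNegInvGlue (3 * τ ^ 2 / 16) / 100)
        ≤ ∫ σ in Icc (-(τ / 4)) (τ / 4), hz (pt θ p σ) := by
          apply setIntegral_mono_on (integrableOn_const (by simp)) hint.integrableOn measurableSet_Icc
          intro σ hσ
          rw [hz_pt]
          apply div_le_div_of_nonneg_right _ (by norm_num)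
          apply eng_mono
          have : σ ^ 2 ≤ τ ^ 2 / 16 := by
            have := hσ.1
            have := hσ.2
            nlinarith
          linarith
      _ ≤ ∫ σ : ℝ, hz (pt θ p σ) :=
          setIntegral_le_integral hint (Eventually.of_forall fun σ => hz_nice.nonneg _)

lemma rad_hz_pos (l : ℝ × ℝ) (hl : |l.2| < 1) : 0 < Rad hz l := by
  have h1 : 0 < 1 - l.2 ^ 2 := by
    have := abs_lt.1 hl
    nlinarith
  obtain ⟨m, hm, h⟩ := rad_hz_lower (2 * √(1 - l.2 ^ 2)) (by positivity)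
  exact hm.trans_le (h l.1 l.2 hl le_rfl)

/-- the sparse sequence of levels -/
lemma exists_levels : ∃ t : ℕ → ℝ, (∀ k, 0 < t k) ∧ (∀ k, t (k + 1) ≤ t k / 2) ∧
    ∀ k, ∀ θ p : ℝ, |p| < 1 → t k ≤ 2 * √(1 - p ^ 2) → 2 * t (k + 1) < Rad hz (θ, p) := by
  classical
  have key : ∀ τ : ℝ, ∃ m : ℝ, 0 < τ → 0 < m ∧ ∀ θ p : ℝ, |p| < 1 → τ ≤ 2 * √(1 - p ^ 2) →
      m ≤ Rad hz (θ, p) := by
    intro τ
    by_cases hτ : 0 < τ
    · obtain ⟨m, hm, h⟩ := rad_hz_lower τ hτ
      exact ⟨m, fun _ => ⟨hm, h⟩⟩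
    · exact ⟨0, fun h => absurd h hτ⟩
  choose m hm using key
  let t : ℕ → ℝ := fun n => Nat.rec 1 (fun _ x => min (x / 2) (m x / 4)) n
  have ht : ∀ k, t (k + 1) = min (t k / 2) (m (t k) / 4) := fun k => rfl
  have hpos : ∀ k, 0 < t k := by
    intro k
    induction k with
    | zero => show (0:ℝ) < 1; norm_num
    | succ k ih =>
      rw [ht]
      have := (hm (t k) ih).1
      positivity
  refine ⟨t, hpos, ?_, ?_⟩
  · intro k
    rw [ht]
    exact min_le_left _ _
  · intro k θ p hp hle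
    have h1 := (hm (t k) (hpos k)).1
    have h2 := (hm (t k) (hpos k)).2 θ p hp hle
    have h3 : t (k + 1) ≤ m (t k) / 4 := by rw [ht]; exact min_le_right _ _
    linarith

lemma exists_tasks (hk : Kill2Stmt) (t : ℕ → ℝ) (ht : ∀ k, 0 < t k) : ∃ T : ℕ → Task,
    (∀ n, ∃ k, (T n).t = t k) ∧ ∀ (θ p : ℝ), |p| < 1 → ∃ c1 > 0, √(1 - p ^ 2) ≤ 20 * c1 ∧
    ∀ k n, ∃ m ≥ n, |θ - (T m).x.1| ≤ (T m).e ∧ |p - (T m).x.2| ≤ (T m).e ∧ (T m).t = t k ∧
      (T m).c0 = c1 := by
  classical
  let X := {q : ℝ × ℝ // |q.2| < 1}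
  choose e he c0 hc0 hroot hkill using fun q : X => hk q.1.1 q.1.2 q.2
  have hnhds : ∀ q : X, {y : X | |y.1.1 - q.1.1| < e q ∧ |y.1.2 - q.1.2| < e q} ∈ 𝓝 q := by
    intro q
    have o1 : IsOpen {y : X | |y.1.1 - q.1.1| < e q} := isOpen_lt (by fun_prop) (by fun_prop)
    have o2 : IsOpen {y : X | |y.1.2 - q.1.2| < e q} := isOpen_lt (by fun_prop) (by fun_prop)
    apply (o1.inter o2).mem_nhds
    simp [he q]
  obtain ⟨S, hS, hcov⟩ := TopologicalSpace.countable_cover_nhds hnhds
  have hSne : S.Nonempty := by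
    by_contra hcon
    rw [not_nonempty_iff_eq_empty] at hcon
    rw [hcon] at hcov
    simp only [mem_empty_iff_false, iUnion_of_empty, iUnion_empty] at hcov
    have : (⟨(0, 0), by simp⟩ : X) ∈ (∅ : Set X) := by rw [hcov]; trivial
    exact this
  obtain ⟨f, hf⟩ := hS.exists_eq_range hSne
  refine ⟨fun m => ⟨(f (Nat.unpair (Nat.unpair m).1).1).1, e (f (Nat.unpair (Nat.unpair m).1).1),
    c0 (f (Nat.unpair (Nat.unpair m).1).1), t (Nat.unpair (Nat.unpair m).1).2, he _, hc0 _, ht _,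
    hkill _⟩, fun n => ⟨_, rfl⟩, ?_⟩
  intro θ p hp
  have h1 : (⟨(θ, p), hp⟩ : X) ∈ ⋃ x ∈ S, {y : X | |y.1.1 - x.1.1| < e x ∧ |y.1.2 - x.1.2| < e x} := by
    rw [hcov]; trivial
  simp only [mem_iUnion] at h1
  obtain ⟨x, hxS, hx⟩ := h1
  rw [hf] at hxS
  obtain ⟨i, hi⟩ := hxS
  refine ⟨c0 x, hc0 x, hroot x p hx.2.le, ?_⟩
  intro j n
  refine ⟨Nat.pair (Nat.pair i j) n, Nat.right_le_pair _ _, ?_⟩
  simp only [Nat.unpair_pair, hi]
  exact ⟨hx.1.le, hx.2.le, trivial, trivial⟩

lemma section_ball (θ p : ℝ) (hp : |p| < 1) :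
    volume {σ : ℝ | pt θ p σ ∈ Metric.ball (0 : ℂ) 1} ≤ ENNReal.ofReal (2 * √(1 - p ^ 2)) := by
  have h1 : 0 ≤ 1 - p ^ 2 := by
    have := abs_lt.1 hp
    nlinarith
  set r := √(1 - p ^ 2) with hr
  have hr0 : 0 ≤ r := Real.sqrt_nonneg _
  have hr2 : r ^ 2 = 1 - p ^ 2 := Real.sq_sqrt h1
  have hsub : {σ : ℝ | pt θ p σ ∈ Metric.ball (0 : ℂ) 1} ⊆ Icc (-r) r := by
    intro σ hσ
    have h2 : ‖pt θ p σ‖ < 1 := by simpa using hσ
    have h3 := norm_pt_sq θ p σ
    have h4 : ‖pt θ p σ‖ ^ 2 < 1 := by nlinarith [norm_nonneg (pt θ p σ)]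
    have h5 : |σ| ≤ r := by
      apply abs_le_of_sq_le_sq _ hr0
      rw [hr2]; linarith
    exact abs_le.1 h5
  refine (measure_mono hsub).trans ?_
  rw [Real.volume_Icc]
  apply ENNReal.ofReal_le_ofReal
  linarith

/-- The Borel counterexample in the plane `ℂ`. -/
theorem main_borel2 (hk : Kill2Stmt) (hai : AI2Stmt) : ∃ E : Set ℂ, MeasurableSet E ∧
    E ⊆ Metric.ball 0 1 ∧ 0 < volume E ∧ ∃ t : ℕ → ℝ, (∀ k, 0 < t k) ∧ Tendsto t atTop (𝓝 0) ∧
    ∀ k, ∀ θ p : ℝ, volume {σ : ℝ | pt θ p σ ∈ E} ≠ ENNReal.ofReal (t k) := by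
  obtain ⟨t, htpos, hthalf, htsparse⟩ := exists_levels
  obtain ⟨T, hTt, hT⟩ := exists_tasks hk t htpos
  obtain ⟨c, hc⟩ := exists_chain hai T hz hz_nice rad_hz_pos
  have htanti : StrictAnti t := strictAnti_nat_of_succ_lt fun k => by
    have := hthalf k
    have := htpos k
    linarith
  have htle : ∀ k, t k ≤ t 0 * (1 / 2) ^ k := by
    intro n
    induction n with
    | zero => simp
    | succ n ih =>
      have := hthalf n
      rw [pow_succ]
      linarith
  have htend : Tendsto t atTop (𝓝 0) := by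
    refine squeeze_zero (fun n => (htpos n).le) htle ?_
    have := (tendsto_pow_atTop_nhds_zero_of_lt_one (by norm_num : (0:ℝ) ≤ 1 / 2)
      (by norm_num)).const_mul (t 0)
    simpa using this
  have hfinb : ∀ l : ℝ × ℝ, ∀ S : Set ℂ, S ⊆ Metric.ball 0 1 →
      volume {σ : ℝ | pt l.1 l.2 σ ∈ S} ≠ ⊤ := by
    intro l S hS
    have : {σ : ℝ | pt l.1 l.2 σ ∈ S} ⊆ Icc (-1) 1 := by
      intro σ hσ
      have h1 := hS hσ
      rw [mem_ball_zero_iff] at h1
      by_contra hcon
      have h3 : 1 ≤ |σ| := by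
        by_contra h2
        push Not at h2
        rw [abs_lt] at h2
        exact hcon ⟨h2.1.le, h2.2.le⟩
      have := one_le_norm_pt l.1 l.2 σ h3
      linarith
    exact ne_top_of_le_ne_top (by simp) (measure_mono this)
  have hRpos : ∀ l : ℝ × ℝ, |l.2| < 1 → 0 < (volume {σ : ℝ | pt l.1 l.2 σ ∈ c.E0}).toReal := by
    intro l hl
    have h1 := (c.limit_rel l).1
    have h2 := rad_hz_pos l hl
    rw [hc] at h1
    linarith
  have hpos : 0 < volume c.E0 := by
    rw [pos_iff_ne_zero]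
    intro h0
    have hmp := (Complex.volume_preserving_equiv_real_prod).symm Complex.measurableEquivRealProd
    have h1 : volume (Complex.measurableEquivRealProd.symm ⁻¹' c.E0) = 0 := by
      rw [hmp.measure_preimage c.measE0.nullMeasurableSet]
      exact h0
    rw [Measure.volume_eq_prod, Measure.measure_prod_null
      (Complex.measurableEquivRealProd.symm.measurable c.measE0)] at h1
    have h2 : ∀ᵐ p : ℝ, volume {σ : ℝ | pt 0 p σ ∈ c.E0} = 0 := by
      filter_upwards [h1] with p hp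
      have e : {σ : ℝ | pt 0 p σ ∈ c.E0} =
          Prod.mk p ⁻¹' (Complex.measurableEquivRealProd.symm ⁻¹' c.E0) := by
        ext σ
        simp only [mem_setOf_eq, mem_preimage]
        have : pt 0 p σ = Complex.measurableEquivRealProd.symm (p, σ) := by
          unfold pt
          apply Complex.ext <;> simp [Complex.measurableEquivRealProd]
        rw [this]
      rw [e]
      exact hp
    have h3 : volume {p : ℝ | ¬ volume {σ : ℝ | pt 0 p σ ∈ c.E0} = 0} = 0 := h2
    have h4 : Ioo (-1 : ℝ) 1 ⊆ {p : ℝ | ¬ volume {σ : ℝ | pt 0 p σ ∈ c.E0} = 0} := by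
      intro p hp h5
      have := hRpos (0, p) (abs_lt.2 hp)
      simp only [h5] at this
      simp at this
    have h6 := measure_mono_null h4 h3
    rw [Real.volume_Ioo] at h6
    norm_num at h6
  refine ⟨c.E0 ∪ c.N, c.measE0.union c.measN, union_subset c.E0_sub c.N_sub,
    hpos.trans_le (measure_mono subset_union_left), t, htpos, htend, ?_⟩
  intro k θ p heq
  by_cases hp : |p| < 1
  · set R := (volume {σ : ℝ | pt θ p σ ∈ c.E0}).toReal with hR
    have hRp : 0 < R := hRpos (θ, p) hp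
    have hRvol : volume {σ : ℝ | pt θ p σ ∈ c.E0} = ENNReal.ofReal R := by
      rw [hR, ENNReal.ofReal_toReal (hfinb (θ, p) _ c.E0_sub)]
    have hrel := c.limit_rel (θ, p)
    rw [hc] at hrel
    have hup := rad_hz_upper θ p hp
    by_cases hA : ∃ j, R = t j
    · obtain ⟨j, hj⟩ := hA
      obtain ⟨c1, hc1, hroot, hinf⟩ := hT θ p hp
      have h1 := c.served_line θ p (t j) c1 hj (hinf j)
      have hsq : 0 < √(1 - p ^ 2) := by
        apply Real.sqrt_pos.2
        have := abs_lt.1 hp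
        nlinarith
      have h2 : t j < c1 := by
        have a1 : R ≤ 2 * Rad hz (θ, p) := hrel.2
        rw [← hj]
        linarith
      have h3 : ENNReal.ofReal c1 ≤ ENNReal.ofReal (t k) := by
        rw [← heq]
        exact h1.trans (measure_mono fun σ hσ => Or.inr hσ)
      rw [ENNReal.ofReal_le_ofReal_iff (htpos k).le] at h3
      have h4 : t j < t k := by linarith
      have h5 : k < j := htanti.lt_iff_gt.1 h4
      obtain ⟨i, rfl⟩ : ∃ i, j = i + 1 := ⟨j - 1, by omega⟩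
      have h6 : t i ≤ t k := htanti.antitone (by omega)
      have h7 : 2 * √(1 - p ^ 2) < t i := by
        by_contra hcon
        push Not at hcon
        have h8 := htsparse i θ p hp hcon
        have a1 : 1 / 2 * Rad hz (θ, p) ≤ R := hrel.1
        linarith
      have h8 : ENNReal.ofReal (t k) ≤ ENNReal.ofReal (2 * √(1 - p ^ 2)) := by
        rw [← heq]
        refine (measure_mono fun σ hσ => ?_).trans (section_ball θ p hp)
        exact union_subset c.E0_sub c.N_sub hσ
      rw [ENNReal.ofReal_le_ofReal_iff (by positivity)] at h8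
      linarith
    · push Not at hA
      have hcl : IsClosed (insert (0:ℝ) (range t)) := htend.isCompact_insert_range.isClosed
      have hni : R ∉ insert (0:ℝ) (range t) := by
        rintro (h | ⟨j, hj⟩)
        · linarith
        · exact hA j hj.symm
      have hd := (hcl.notMem_iff_infDist_pos (insert_nonempty _ _)).1 hni
      have hnull := c.null_line (θ, p) _ hd (by
        intro n
        obtain ⟨j, hj⟩ := hTt n
        rw [hj]
        exact Metric.infDist_le_dist_of_mem (mem_insert_of_mem _ (mem_range_self j)))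
      have h1 : volume {σ : ℝ | pt θ p σ ∈ c.E0 ∪ c.N} = ENNReal.ofReal R := by
        rw [← hRvol]
        apply le_antisymm
        · calc volume {σ : ℝ | pt θ p σ ∈ c.E0 ∪ c.N}
              ≤ volume {σ : ℝ | pt θ p σ ∈ c.E0} + volume {σ : ℝ | pt θ p σ ∈ c.N} :=
                measure_union_le _ _
            _ = volume {σ : ℝ | pt θ p σ ∈ c.E0} := by rw [hnull, add_zero]
        · exact measure_mono fun σ hσ => Or.inl hσ
      rw [h1, ENNReal.ofReal_eq_ofReal_iff hRp.le (htpos k).le] at heq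
      exact hA k heq
  · push Not at hp
    have : {σ : ℝ | pt θ p σ ∈ c.E0 ∪ c.N} = ∅ := by
      rw [eq_empty_iff_forall_notMem]
      intro σ hσ
      have h1 := union_subset c.E0_sub c.N_sub hσ
      rw [mem_ball_zero_iff] at h1
      have h2 := one_le_norm_pt' θ p σ hp
      linarith
    rw [this, measure_empty] at heq
    have h3 := ENNReal.ofReal_eq_zero.1 heq.symm
    have h4 := htpos k
    linarith

/-- Borel counterexample in the Euclidean plane. -/
theorem final_borel (hk : Kill2Stmt) (hai : AI2Stmt) : ∃ E : Set (EuclideanSpace ℝ (Fin 2)),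
    MeasurableSet E ∧ Bornology.IsBounded E ∧ 0 < volume E ∧ volume E < ⊤ ∧
    ∃ t : ℕ → ℝ, (∀ k, 0 < t k) ∧ Tendsto t atTop (𝓝 0) ∧
    ∀ k, ∀ a v : EuclideanSpace ℝ (Fin 2), ‖v‖ = 1 →
      volume {s : ℝ | a + s • v ∈ E} ≠ ENNReal.ofReal (t k) := by
  obtain ⟨E0, hE, hEb, hEpos, t, htpos, htend, hmain⟩ := main_borel2 hk hai
  let φ : ℂ ≃ₗᵢ[ℝ] EuclideanSpace ℝ (Fin 2) := Complex.orthonormalBasisOneI.repr
  have hφ : MeasurePreserving φ.symm volume volume := φ.symm.measurePreserving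
  have hb : (φ.symm ⁻¹' E0 : Set (EuclideanSpace ℝ (Fin 2))) ⊆ Metric.closedBall 0 2 := by
    intro x hx
    rw [mem_closedBall_zero_iff, ← φ.symm.norm_map x]
    have := hEb hx
    rw [mem_ball_zero_iff] at this
    linarith
  refine ⟨φ.symm ⁻¹' E0, hφ.measurable hE, Metric.isBounded_closedBall.subset hb, ?_,
    (measure_mono hb).trans_lt (isCompact_closedBall _ _).measure_lt_top, t, htpos, htend, ?_⟩
  · rw [hφ.measure_preimage hE.nullMeasurableSet]
    exact hEpos
  · intro k a v hv heq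
    obtain ⟨θ, p, σ0, hpt⟩ := FF.exists_pt (φ.symm a) (φ.symm v) (by rw [φ.symm.norm_map]; exact hv)
    have hpre : {s : ℝ | a + s • v ∈ φ.symm ⁻¹' E0} =
        (fun s => σ0 + s) ⁻¹' {σ : ℝ | pt θ p σ ∈ E0} := by
      ext s
      simp only [mem_setOf_eq, mem_preimage]
      rw [← hpt s, map_add, map_smul]
      simp
    apply hmain k θ p
    rw [← heq, hpre]
    exact (measure_preimage_add volume σ0 _).symm

/-- Borel counterexample in the Euclidean plane, from the second kill lemma only. -/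
theorem final_borel' (hk : Kill2Stmt) : ∃ E : Set (EuclideanSpace ℝ (Fin 2)),
    MeasurableSet E ∧ Bornology.IsBounded E ∧ 0 < volume E ∧ volume E < ⊤ ∧
    ∃ t : ℕ → ℝ, (∀ k, 0 < t k) ∧ Tendsto t atTop (𝓝 0) ∧
    ∀ k, ∀ a v : EuclideanSpace ℝ (Fin 2), ‖v‖ = 1 →
      volume {s : ℝ | a + s • v ∈ E} ≠ ENNReal.ofReal (t k) :=
  final_borel hk fun h hh hpos ε hε => almost_indicator2 h hh hpos ε hε

end F2
end Croft
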